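import Pool.Agent.E8helper28.LN.Hp6
import Pool.Agent.E8helper28.GB.All

set_option autoImplicit false
set_option maxHeartbeats 4000000

/-!
# Common neighbours in the Goldbach graphs (helper28): the first moment
-/

namespace Pool.Agent.E8helper28.GN

open Finset
open Pool.Agent.E8helper66.GB (S_U3)
open Pool.Agent.H373R2.T7 (pz Vz Vz_pos mem_pz Vz_inv_small ev_L' ev_log' tele)
open Pool.Agent.TH935.TF (LL mdl LL_nonneg LL_le mdl_nonneg mdl_le)
open Pool.Agent.E8helper28.LN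

lemma sum_box (M N : ℕ) (n σ : ℤ) (hσ : σ = 1 ∨ σ = -1) (hn : |n| + N ≤ M) (F : ℤ → ℝ)
    (hF : ∀ x : ℤ, (∀ v ∈ Icc 1 N, x ≠ n + σ * (v : ℤ)) → F x = 0) :
    ∑ x ∈ Icc (-(M : ℤ)) M, F x = ∑ v ∈ Icc 1 N, F (n + σ * (v : ℤ)) := by
  symm
  apply sum_of_injOn (fun v : ℕ => n + σ * (v : ℤ))
  · intro v _ w _ h
    simp only at h
    rcases hσ with rfl | rfl
    · omega
    · omega
  · intro v hv
    rw [mem_coe, mem_Icc] at hv
    rw [mem_coe, mem_Icc]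
    have h1 := abs_le.1 (le_refl |n|)
    change -(M : ℤ) ≤ n + σ * (v : ℤ) ∧ n + σ * (v : ℤ) ≤ M
    rcases hσ with rfl | rfl
    · constructor <;> omega
    · constructor <;> omega
  · intro x _ hx
    apply hF
    intro v hv hxv
    exact hx ⟨v, by exact_mod_cast hv, hxv.symm⟩
  · intro v _
    rfl

theorem one_side (hU3 : S_U3) (U : ℕ) : ∃ B0 : ℕ, ∀ E : ℕ, ∃ N0 : ℕ, ∀ N : ℕ, N0 ≤ N → ∀ z : ℕ, Real.log N ^ B0 ≤ z →
    (z : ℝ) ≤ Real.log N ^ E → ∀ σ : ℤ, (σ = 1 ∨ σ = -1) → ∀ G e : ℕ → ℝ, (∀ n, |G n| ≤ 1) → (∀ v, |e v| ≤ 1) →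
    ∀ h : ℤ → ℝ, (∀ x, |h x| ≤ 1) →
    |∑ v ∈ Icc 1 N, e v * ∑ n ∈ Icc 1 N, G n * (Ds z ((n : ℤ) + σ * v) * h ((n : ℤ) - σ * v))| ≤ (N : ℝ) ^ 2 / Real.log N ^ U := by
  classical
  obtain ⟨B, hB⟩ := T3 hU3 (U + 1)
  refine ⟨B + 1, fun E => ?_⟩
  obtain ⟨n0, h0⟩ := hB E
  obtain ⟨n1, h1⟩ := ev_L' (2 ^ B + 4)
  refine ⟨n0 + n1 + 2, fun N hN z hz1 hz2 σ hσ G e hG he h hh => ?_⟩
  have b1 := h1 N (by omega)
  obtain ⟨L, hL⟩ : ∃ L, L = Real.log (N : ℝ) := ⟨_, rfl⟩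
  rw [← hL] at b1 hz1 hz2 ⊢
  have p1 : (0 : ℝ) < 2 ^ B := by positivity
  have hL1 : 1 ≤ L := by linarith
  have hL0 : 0 < L := by linarith
  have hNr : (2 : ℝ) ≤ N := by exact_mod_cast (by omega : 2 ≤ N)
  have hN0 : (0 : ℝ) < N := by linarith
  obtain ⟨M, hM⟩ : ∃ M, M = 2 * N := ⟨_, rfl⟩
  obtain ⟨LM, hLM⟩ : ∃ LM, LM = Real.log (M : ℝ) := ⟨_, rfl⟩
  have hLM1 : L ≤ LM := by
    rw [hL, hLM, hM]
    apply Real.log_le_log hN0
    push_cast
    linarith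
  have hLM2 : LM ≤ 2 * L := by
    rw [hLM, hM]
    push_cast
    rw [Real.log_mul (by norm_num) hN0.ne', ← hL]
    have : Real.log 2 ≤ L := by rw [hL]; exact Real.log_le_log (by norm_num) hNr
    linarith
  have hz1' : LM ^ B ≤ z := by
    refine le_trans ?_ hz1
    calc LM ^ B ≤ (2 * L) ^ B := pow_le_pow_left₀ (by linarith) hLM2 _
      _ = 2 ^ B * L ^ B := mul_pow _ _ _
      _ ≤ L * L ^ B := mul_le_mul_of_nonneg_right (by linarith) (by positivity)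
      _ = L ^ (B + 1) := by ring
  have hz2' : (z : ℝ) ≤ LM ^ E := hz2.trans (pow_le_pow_left₀ hL0.le hLM1 E)
  -- the functions on the integers
  obtain ⟨g, hg⟩ : ∃ g : ℤ → ℝ, g = fun y : ℤ => if 1 ≤ y ∧ y ≤ N then G y.toNat else 0 := ⟨_, rfl⟩
  obtain ⟨k, hk⟩ : ∃ k : ℤ → ℝ, k = fun x : ℤ => if x ∈ Icc (-(M : ℤ)) M then h x else 0 := ⟨_, rfl⟩
  obtain ⟨d, hd⟩ : ∃ d : ℤ → ℝ, d = fun w : ℤ => if 1 ≤ σ * w ∧ σ * w ≤ N then e (σ * w).toNat else 0 := ⟨_, rfl⟩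
  have key := h0 M (by omega) z (by rw [← hLM]; exact hz1') (by rw [← hLM]; exact hz2') (-1) 2 0 (by norm_num) g k d
    (fun x => by rw [hg]; simp only; split_ifs; exacts [hG _, by simp])
    (fun x => by rw [hk]; simp only; split_ifs; exacts [hh _, by simp])
    (fun x => by rw [hd]; simp only; split_ifs; exacts [he _, by simp])
    (fun x hx => by
      rw [hg]
      simp only
      rw [if_neg]
      rw [mem_Icc] at hx
      omega)
    (fun x hx => by rw [hk]; simp only; rw [if_neg hx])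
  have hσ2 : σ * σ = 1 := by rcases hσ with rfl | rfl <;> norm_num
  have hid : ∑ x ∈ Icc (-(M : ℤ)) M, ∑ y ∈ Icc (-(M : ℤ)) M, Ds z x * g y * k (-1 * x + 2 * y + 0) * d (x - y) =
      ∑ v ∈ Icc 1 N, e v * ∑ n ∈ Icc 1 N, G n * (Ds z ((n : ℤ) + σ * v) * h ((n : ℤ) - σ * v)) := by
    rw [sum_comm]
    rw [sum_box M N 0 1 (Or.inl rfl) (by rw [abs_zero]; omega) (fun y => ∑ x ∈ Icc (-(M : ℤ)) M, Ds z x * g y * k (-1 * x + 2 * y + 0) * d (x - y))]
    · rw [sum_congr rfl fun v _ => mul_sum _ _ _, sum_comm (s := Icc 1 N) (t := Icc 1 N)]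
      refine sum_congr rfl fun n hn => ?_
      rw [mem_Icc] at hn
      rw [sum_box M N (0 + 1 * (n : ℤ)) σ hσ (by
        rw [show (0 : ℤ) + 1 * (n : ℤ) = n by ring, abs_of_nonneg (by positivity)]
        omega)]
      · refine sum_congr rfl fun v hv => ?_
        rw [mem_Icc] at hv
        have e1 : g (0 + 1 * (n : ℤ)) = G n := by
          rw [hg]
          simp only
          rw [if_pos (by constructor <;> omega)]
          congr 1
          omega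
        have e2 : d (0 + 1 * (n : ℤ) + σ * v - (0 + 1 * (n : ℤ))) = e v := by
          rw [show (0 : ℤ) + 1 * (n : ℤ) + σ * v - (0 + 1 * (n : ℤ)) = σ * v by ring, hd]
          simp only
          rw [← mul_assoc, hσ2, one_mul, if_pos (by constructor <;> omega)]
          congr 1
        have e3 : k (-1 * (0 + 1 * (n : ℤ) + σ * v) + 2 * (0 + 1 * (n : ℤ)) + 0) = h ((n : ℤ) - σ * v) := by
          rw [show -1 * ((0 : ℤ) + 1 * (n : ℤ) + σ * v) + 2 * (0 + 1 * (n : ℤ)) + 0 = (n : ℤ) - σ * v by ring, hk]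
          simp only
          rw [if_pos]
          rw [mem_Icc]
          rcases hσ with rfl | rfl <;> constructor <;> omega
        rw [e1, e2, e3, show (0 : ℤ) + 1 * (n : ℤ) + σ * v = (n : ℤ) + σ * v by ring]
        ring
      · intro x hx
        have e2 : d (x - (0 + 1 * (n : ℤ))) = 0 := by
          rw [hd]
          simp only
          rw [if_neg]
          rintro ⟨h5, h6⟩
          apply hx (σ * (x - (0 + 1 * (n : ℤ)))).toNat
          · rw [mem_Icc]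
            omega
          · rw [Int.toNat_of_nonneg (by omega), ← mul_assoc, hσ2]
            ring
        rw [e2, mul_zero]
    · intro y hy
      apply sum_eq_zero
      intro x _
      have e1 : g y = 0 := by
        rw [hg]
        simp only
        rw [if_neg]
        rintro ⟨h5, h6⟩
        apply hy y.toNat
        · rw [mem_Icc]
          omega
        · rw [Int.toNat_of_nonneg (by omega)]
          ring
      rw [e1]
      ring
  rw [← hid]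
  refine key.trans ?_
  rw [← hLM, hM]
  push_cast
  calc (2 * (N : ℝ)) ^ 2 / LM ^ (U + 1) ≤ (2 * (N : ℝ)) ^ 2 / L ^ (U + 1) := by
        apply div_le_div_of_nonneg_left (by positivity) (by positivity)
        exact pow_le_pow_left₀ hL0.le hLM1 _
    _ = (4 / L) * (N ^ 2 / L ^ U) := by rw [pow_succ L U]; field_simp; ring
    _ ≤ 1 * (N ^ 2 / L ^ U) := by
        apply mul_le_mul_of_nonneg_right _ (by positivity)
        rw [div_le_one hL0]
        linarith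
    _ = _ := one_mul _

/-- the adjacency of the Goldbach graph, with weights -/
noncomputable def kf (n v : ℕ) : ℝ := LL ((n : ℤ) + v) * LL ((n : ℤ) - v)

/-- its model -/
noncomputable def kz (z n v : ℕ) : ℝ := mdl z ((n : ℤ) + v) * mdl z ((n : ℤ) - v)

theorem gn_one (hU3 : S_U3) (U : ℕ) : ∃ B0 : ℕ, ∀ E : ℕ, ∃ N0 : ℕ, ∀ N : ℕ, N0 ≤ N → ∀ z : ℕ, Real.log N ^ B0 ≤ z →
    (z : ℝ) ≤ Real.log N ^ E → ∀ K : ℝ, 0 < K → ∀ G : ℕ → ℝ, (∀ n ∈ Icc 1 N, |G n| ≤ K) →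
    ∑ v ∈ Icc 1 N, |∑ n ∈ Icc 1 N, G n * (kf n v - kz z n v)| ≤ K * ((N : ℝ) ^ 2 / Real.log N ^ U) := by
  classical
  obtain ⟨B0, hB0⟩ := one_side hU3 (U + 2)
  refine ⟨B0 + 1, fun E => ?_⟩
  obtain ⟨n0, h0⟩ := hB0 E
  obtain ⟨n1, h1⟩ := ev_L' 4
  obtain ⟨n2, h2⟩ := Vz_inv_small E
  refine ⟨n0 + n1 + n2 + 2, fun N hN z hz1 hz2 K hK G hG => ?_⟩
  have b1 := h1 N (by omega)
  have b2 := h2 N (by omega) z
  have b0 := h0 N (by omega) z
  obtain ⟨L, hL⟩ : ∃ L, L = Real.log (N : ℝ) := ⟨_, rfl⟩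
  rw [← hL] at b0 b1 b2 hz1 hz2 ⊢
  have hL1 : 1 ≤ L := by linarith
  have hL0 : 0 < L := by linarith
  have hNr : (2 : ℝ) ≤ N := by exact_mod_cast (by omega : 2 ≤ N)
  have hN0 : (0 : ℝ) < N := by linarith
  have hz1r : 1 ≤ z := by
    have : (1 : ℝ) ≤ z := (one_le_pow₀ hL1).trans hz1
    exact_mod_cast this
  have hV := b2 hz1r hz2
  have hz0 : L ^ B0 ≤ z := (pow_le_pow_right₀ hL1 (by omega)).trans hz1
  have hlog2N : Real.log ((2 * N : ℕ) : ℝ) ≤ 2 * L := by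
    push_cast
    rw [Real.log_mul (by norm_num) hN0.ne', ← hL]
    have : Real.log 2 ≤ L := by rw [hL]; exact Real.log_le_log (by norm_num) hNr
    linarith
  -- signs
  obtain ⟨ε, hε1, hε2⟩ : ∃ ε : ℕ → ℝ, (∀ v, |ε v| ≤ 1) ∧ ∀ v : ℕ,
      |∑ n ∈ Icc 1 N, G n * (kf n v - kz z n v)| = ε v * ∑ n ∈ Icc 1 N, G n * (kf n v - kz z n v) := by
    refine ⟨fun v => if 0 ≤ ∑ n ∈ Icc 1 N, G n * (kf n v - kz z n v) then 1 else -1, ?_, ?_⟩
    · intro a
      simp only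
      split_ifs <;> simp
    · intro a
      simp only
      split_ifs with h5
      · rw [abs_of_nonneg h5, one_mul]
      · rw [abs_of_neg (not_le.1 h5)]; ring
  rw [sum_congr rfl fun v _ => hε2 v]
  obtain ⟨G', hG'⟩ : ∃ G' : ℕ → ℝ, G' = fun n => if n ∈ Icc 1 N then G n / K else 0 := ⟨_, rfl⟩
  obtain ⟨h₁, hh₁⟩ : ∃ h₁ : ℤ → ℝ, h₁ = fun x : ℤ => if x.natAbs ≤ 2 * N then LL x / (2 * L) else 0 := ⟨_, rfl⟩
  obtain ⟨h₂, hh₂⟩ : ∃ h₂ : ℤ → ℝ, h₂ = fun x => mdl z x / (2 * L) := ⟨_, rfl⟩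
  have hG1 : ∀ n, |G' n| ≤ 1 := by
    intro n
    rw [hG']
    simp only
    split_ifs with h5
    · rw [abs_div, abs_of_pos hK, div_le_one hK]
      exact hG n h5
    · simp
  have hh1 : ∀ x, |h₁ x| ≤ 1 := by
    intro x
    rw [hh₁]
    simp only
    split_ifs with h5
    · rw [abs_div, abs_of_nonneg (LL_nonneg x), abs_of_pos (by positivity), div_le_one (by positivity)]
      exact (LL_le x (2 * N) (by omega) h5).trans hlog2N
    · simp
  have hh2 : ∀ x, |h₂ x| ≤ 1 := by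
    intro x
    rw [hh₂]
    simp only
    rw [abs_div, abs_of_nonneg (mdl_nonneg z x), abs_of_pos (by positivity), div_le_one (by positivity)]
    exact (mdl_le z x).trans (hV.trans (by linarith))
  have k1 := b0 hz0 hz2 1 (Or.inl rfl) G' ε hG1 hε1 h₁ hh1
  have k2 := b0 hz0 hz2 (-1) (Or.inr rfl) G' ε hG1 hε1 h₂ hh2
  have hsplit : ∑ v ∈ Icc 1 N, ε v * ∑ n ∈ Icc 1 N, G n * (kf n v - kz z n v) =
      (K * (2 * L)) * (∑ v ∈ Icc 1 N, ε v * ∑ n ∈ Icc 1 N, G' n * (Ds z ((n : ℤ) + 1 * v) * h₁ ((n : ℤ) - 1 * v)) +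
        ∑ v ∈ Icc 1 N, ε v * ∑ n ∈ Icc 1 N, G' n * (Ds z ((n : ℤ) + (-1) * v) * h₂ ((n : ℤ) - (-1) * v))) := by
    rw [← sum_add_distrib, mul_sum]
    refine sum_congr rfl fun v hv => ?_
    have hin : ∑ n ∈ Icc 1 N, G n * (kf n v - kz z n v) =
        (K * (2 * L)) * (∑ n ∈ Icc 1 N, G' n * (Ds z ((n : ℤ) + 1 * v) * h₁ ((n : ℤ) - 1 * v)) +
          ∑ n ∈ Icc 1 N, G' n * (Ds z ((n : ℤ) + (-1) * v) * h₂ ((n : ℤ) - (-1) * v))) := ?_
    · rw [hin]
      ring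
    rw [← sum_add_distrib, mul_sum]
    refine sum_congr rfl fun n hn => ?_
    have e1 : G' n = G n / K := by rw [hG']; simp only; rw [if_pos hn]
    have e2 : h₁ ((n : ℤ) - 1 * v) = LL ((n : ℤ) - v) / (2 * L) := by
      rw [hh₁]
      simp only
      rw [mem_Icc] at hn hv
      rw [if_pos (by omega), one_mul]
    have e3 : h₂ ((n : ℤ) - (-1) * v) = mdl z ((n : ℤ) + v) / (2 * L) := by
      rw [hh₂]
      simp only
      rw [show (n : ℤ) - (-1) * v = (n : ℤ) + v by ring]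
    rw [e1, e2, e3, show (n : ℤ) + 1 * v = (n : ℤ) + v by ring, show (n : ℤ) + (-1) * v = (n : ℤ) - v by ring]
    unfold kf kz Ds
    have hK' := hK.ne'
    have hL' := hL0.ne'
    field_simp
    ring
  rw [hsplit]
  have hsum := add_le_add k1 k2
  calc (K * (2 * L)) * (∑ v ∈ Icc 1 N, ε v * ∑ n ∈ Icc 1 N, G' n * (Ds z ((n : ℤ) + 1 * v) * h₁ ((n : ℤ) - 1 * v)) +
        ∑ v ∈ Icc 1 N, ε v * ∑ n ∈ Icc 1 N, G' n * (Ds z ((n : ℤ) + (-1) * v) * h₂ ((n : ℤ) - (-1) * v)))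
      ≤ (K * (2 * L)) * ((N : ℝ) ^ 2 / L ^ (U + 2) + (N : ℝ) ^ 2 / L ^ (U + 2)) := by
        apply mul_le_mul_of_nonneg_left _ (by positivity)
        refine le_trans (add_le_add (le_abs_self _) (le_abs_self _)) hsum
    _ = K * ((4 / L) * (N ^ 2 / L ^ U)) := by rw [pow_add L U 2]; field_simp; ring
    _ ≤ K * (1 * (N ^ 2 / L ^ U)) := by
        apply mul_le_mul_of_nonneg_left _ hK.le
        apply mul_le_mul_of_nonneg_right _ (by positivity)
        rw [div_le_one hL0]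
        exact b1
    _ = _ := by rw [one_mul]

theorem gn_mom (hU3 : S_U3) (r U : ℕ) : ∃ B0 : ℕ, ∀ E : ℕ, ∃ N0 : ℕ, ∀ N : ℕ, N0 ≤ N → ∀ z : ℕ, Real.log N ^ B0 ≤ z →
    (z : ℝ) ≤ Real.log N ^ E → ∀ w : ℕ → ℝ, (∀ n, |w n| ≤ 1) →
    ∑ a ∈ Fintype.piFinset (fun _ : Fin r => Icc 1 N), |∑ n ∈ Icc 1 N, w n * (∏ i, kf n (a i) - ∏ i, kz z n (a i))| ≤
      (N : ℝ) ^ (r + 1) / Real.log N ^ U := by
  obtain ⟨B0, hB0⟩ := gn_one hU3 (U + 2 * r + 1)
  refine ⟨B0 + 1, fun E => ?_⟩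
  obtain ⟨n0, h0⟩ := hB0 E
  obtain ⟨n1, h1⟩ := ev_L' (r * 4 ^ r + 4)
  obtain ⟨n2, h2⟩ := Vz_inv_small E
  refine ⟨n0 + n1 + n2 + 2, fun N hN z hz1 hz2 w hw => ?_⟩
  have b1 := h1 N (by omega)
  have b2 := h2 N (by omega) z
  have b0 := h0 N (by omega) z
  obtain ⟨L, hL⟩ : ∃ L, L = Real.log (N : ℝ) := ⟨_, rfl⟩
  rw [← hL] at b0 b1 b2 hz1 hz2 ⊢
  have p1 : (0 : ℝ) ≤ r * 4 ^ r := by positivity
  have hL1 : 1 ≤ L := by linarith
  have hL0 : 0 < L := by linarith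
  have hNr : (2 : ℝ) ≤ N := by exact_mod_cast (by omega : 2 ≤ N)
  have hN0 : (0 : ℝ) < N := by linarith
  have hz1r : 1 ≤ z := by
    have : (1 : ℝ) ≤ z := (one_le_pow₀ hL1).trans hz1
    exact_mod_cast this
  have hV := b2 hz1r hz2
  have hlog2N : Real.log ((2 * N : ℕ) : ℝ) ≤ 2 * L := by
    push_cast
    rw [Real.log_mul (by norm_num) hN0.ne', ← hL]
    have : Real.log 2 ≤ L := by rw [hL]; exact Real.log_le_log (by norm_num) hNr
    linarith
  have hLL : ∀ x : ℤ, x.natAbs ≤ 2 * N → LL x ≤ 2 * L := fun x hx => (LL_le x (2 * N) (by omega) hx).trans hlog2N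
  have key := tele N (fun _ : Fin r => N) (fun _ => by omega)
    (fun _ n v => kf n v) (fun _ n v => kz z n v) (4 * L ^ 2) (N / L ^ (U + 2 * r + 1)) (by nlinarith) (by positivity)
    (fun i n hn v hv => by
      rw [mem_Icc] at hn hv
      unfold kf
      rw [abs_of_nonneg (mul_nonneg (LL_nonneg _) (LL_nonneg _))]
      calc LL ((n : ℤ) + v) * LL ((n : ℤ) - v) ≤ (2 * L) * (2 * L) :=
            mul_le_mul (hLL _ (by omega)) (hLL _ (by omega)) (LL_nonneg _) (by positivity)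
        _ = 4 * L ^ 2 := by ring)
    (fun i n hn v hv => by
      unfold kz
      rw [abs_of_nonneg (mul_nonneg (mdl_nonneg _ _) (mdl_nonneg _ _))]
      calc mdl z ((n : ℤ) + v) * mdl z ((n : ℤ) - v) ≤ L * L :=
            mul_le_mul ((mdl_le _ _).trans hV) ((mdl_le _ _).trans hV) (mdl_nonneg _ _) hL0.le
        _ ≤ 4 * L ^ 2 := by nlinarith)
    (by
      intro i K hK G hG
      refine (b0 ((pow_le_pow_right₀ hL1 (by omega)).trans hz1) hz2 K hK G hG).trans ?_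
      apply mul_le_mul_of_nonneg_left _ hK.le
      apply le_of_eq
      field_simp)
    univ 1 _root_.one_pos (fun n _ => w n) (fun n _ m _ => hw n) (fun _ _ _ _ _ => rfl)
  refine key.trans ?_
  rw [card_univ, Fintype.card_fin, prod_const, card_univ, Fintype.card_fin]
  calc (r : ℝ) * (1 * (4 * L ^ 2) ^ r * (N / L ^ (U + 2 * r + 1))) * (N : ℝ) ^ r
      = (r * 4 ^ r / L) * (N ^ (r + 1) / L ^ U) := by
        rw [mul_pow, ← pow_mul, show U + 2 * r + 1 = 2 * r + U + 1 by ring, pow_succ L (2 * r + U), pow_add L (2 * r) U,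
          pow_succ (N : ℝ) r]
        field_simp
    _ ≤ 1 * (N ^ (r + 1) / L ^ U) := by
        apply mul_le_mul_of_nonneg_right _ (by positivity)
        rw [div_le_one hL0]
        linarith
    _ = _ := one_mul _

end Pool.Agent.E8helper28.GN
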