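import Pool.Agent.E8helper28.GN.Gn1

set_option autoImplicit false
set_option maxHeartbeats 4000000

/-!
# Common neighbours in the Goldbach graphs (helper28): arbitrary sets and windows
-/

namespace Pool.Agent.E8helper28.GN

open Finset
open Pool.Agent.E8helper66.GB (S_U3)
open Pool.Agent.H373R2.T7
open Pool.Agent.TH935.TF
open Pool.Agent.TH935.TG
open Pool.Agent.E8helper28.LN

/-- the vector `a 1, -a 1, a 2, -a 2, ...` -/
def vv {r : ℕ} (a : Fin r → ℕ) (i : Fin (r * 2)) : ℤ :=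
  if (finProdFinEquiv.symm i).2 = 0 then (a (finProdFinEquiv.symm i).1 : ℤ) else -(a (finProdFinEquiv.symm i).1 : ℤ)

lemma prod_vv {r : ℕ} (a : Fin r → ℕ) (F : ℤ → ℝ) : ∏ i, F (vv a i) = ∏ j, (F (a j) * F (-(a j : ℤ))) := by
  rw [← Equiv.prod_comp finProdFinEquiv, Fintype.prod_prod_type]
  refine prod_congr rfl fun j _ => ?_
  rw [Fin.prod_univ_two]
  unfold vv
  rw [Equiv.symm_apply_apply, Equiv.symm_apply_apply]
  simp

lemma vv_forall {r : ℕ} (a : Fin r → ℕ) (P : ℤ → Prop) : (∀ i, P (vv a i)) ↔ ∀ j, P (a j) ∧ P (-(a j : ℤ)) := by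
  constructor
  · intro h j
    have h1 := h (finProdFinEquiv (j, 0))
    have h2 := h (finProdFinEquiv (j, 1))
    unfold vv at h1 h2
    rw [Equiv.symm_apply_apply] at h1 h2
    simp only [if_true] at h1
    rw [if_neg (by decide : ¬ (1 : Fin 2) = 0)] at h2
    exact ⟨h1, h2⟩
  · intro h i
    unfold vv
    split_ifs
    · exact (h _).1
    · exact (h _).2

lemma vv_inj {r : ℕ} (a : Fin r → ℕ) (ha : Function.Injective a) (h1 : ∀ i, 1 ≤ a i) : Function.Injective (vv a) := by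
  intro i j hij
  unfold vv at hij
  have hi := h1 (finProdFinEquiv.symm i).1
  have hj := h1 (finProdFinEquiv.symm j).1
  apply finProdFinEquiv.symm.injective
  split_ifs at hij with h2 h3 h3
  · have h4 : (a (finProdFinEquiv.symm i).1) = (a (finProdFinEquiv.symm j).1) := by omega
    exact Prod.ext (ha h4) (h2.trans h3.symm)
  · omega
  · omega
  · have h4 : (a (finProdFinEquiv.symm i).1) = (a (finProdFinEquiv.symm j).1) := by omega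
    refine Prod.ext (ha h4) ?_
    have e : ∀ x : Fin 2, x ≠ 0 → x = 1 := by decide
    rw [e _ h2, e _ h3]

lemma vv_le {r : ℕ} (a : Fin r → ℕ) (N : ℕ) (h : ∀ i, a i ≤ N) (i : Fin (r * 2)) : (vv a i).natAbs ≤ 1 * N := by
  unfold vv
  have := h (finProdFinEquiv.symm i).1
  split_ifs <;> omega

/-- the vertices -/
def box (r N : ℕ) : Finset (Fin r → ℕ) := Fintype.piFinset (fun _ : Fin r => Icc 1 N)

open Classical in
theorem arb_gn (hU3 : S_U3) (r T U K : ℕ) (hr : 1 ≤ r) (ε : ℝ) (hε : 0 < ε) : ∃ E0 : ℕ, ∀ E : ℕ, E0 ≤ E →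
    ∃ N0 : ℕ, ∀ N : ℕ, N0 ≤ N → ∀ (τ : Type) [Fintype τ], (Fintype.card τ : ℝ) ≤ Real.log N ^ T →
    ∀ 𝒩 : τ → Finset ℕ, (∀ l, 𝒩 l ⊆ Ioc 0 (1 * N)) →
    (((box r N).filter (fun a => ¬ HA1 ε K N ⌊Real.log N ^ E⌋₊ 𝒩 (vv a))).card : ℝ) ≤ (N : ℝ) ^ r / Real.log N ^ U := by
  obtain ⟨k, hk⟩ : ∃ k, k = r * 2 := ⟨_, rfl⟩
  obtain ⟨B0, hB0⟩ := gn_mom hU3 r (U + T + K + 1)
  refine ⟨B0 + 1, fun E hE0 => ?_⟩
  obtain ⟨n0, h0⟩ := hB0 E
  obtain ⟨n1, h1⟩ := convM (r * 2) K 1 0 (by omega) ε hε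
  obtain ⟨n2, h2⟩ := ev_L' 10
  refine ⟨n0 + n1 + n2 + 3, fun N hN τ _ ht 𝒩 h𝒩 => ?_⟩
  have b1 := h1 N (by omega)
  have b2 := h2 N (by omega)
  have b0 := h0 N (by omega)
  obtain ⟨L, hL⟩ : ∃ L, L = Real.log (N : ℝ) := ⟨_, rfl⟩
  obtain ⟨z, hz⟩ : ∃ z : ℕ, z = ⌊Real.log N ^ E⌋₊ := ⟨_, rfl⟩
  rw [← hz]
  have b0' := b0 z (by
      rw [hz]
      rw [← hL] at b2 ⊢
      have e1 : L ^ E < ⌊L ^ E⌋₊ + 1 := Nat.lt_floor_add_one _
      have e2 : L ^ (B0 + 1) ≤ L ^ E := pow_le_pow_right₀ (by linarith) hE0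
      have e3 : 1 ≤ L ^ B0 := one_le_pow₀ (by linarith)
      rw [pow_succ] at e2
      nlinarith) (by
      rw [hz]
      rw [← hL] at b2 ⊢
      exact Nat.floor_le (pow_nonneg (by linarith) _))
  rw [← hL] at b0' b1 b2 ht ⊢
  have hL1 : 1 ≤ L := by linarith
  have hL0 : 0 < L := by linarith
  have hNr : (3 : ℝ) ≤ N := by exact_mod_cast (by omega : 3 ≤ N)
  have hN0 : (0 : ℝ) < N := by linarith
  obtain ⟨𝒮, h𝒮⟩ : ∃ 𝒮, 𝒮 = (box r N).filter (fun a => ¬ HA1 ε K N z 𝒩 (vv a)) := ⟨_, rfl⟩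
  rw [← h𝒮]
  have hindic : ∀ (M : Finset ℕ), M ⊆ Ioc 0 (1 * N) → ∀ f : ℕ → ℝ,
      ∑ n ∈ Icc 1 N, (if n ∈ M then (1 : ℝ) else 0) * f n = ∑ n ∈ M, f n := by
    intro M hM f
    have hsub : M ⊆ Icc 1 N := by
      intro n hn
      have := mem_Ioc.1 (hM hn)
      rw [mem_Icc]
      omega
    simp only [ite_mul, one_mul, zero_mul]
    rw [sum_ite_mem, inter_eq_right.2 hsub]
  have ekf : ∀ (a : Fin r → ℕ) (n : ℕ), ∏ i, LL ((n : ℤ) + vv a i) = ∏ i, kf n (a i) := by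
    intro a n
    rw [prod_vv a (fun s => LL ((n : ℤ) + s))]
    refine prod_congr rfl fun j _ => ?_
    unfold kf
    rw [show (n : ℤ) + -(a j : ℤ) = (n : ℤ) - a j by ring]
  have ekz : ∀ (a : Fin r → ℕ) (n : ℕ), ∏ i, mdl z ((n : ℤ) + vv a i) = ∏ i, kz z n (a i) := by
    intro a n
    rw [prod_vv a (fun s => mdl z ((n : ℤ) + s))]
    refine prod_congr rfl fun j _ => ?_
    unfold kz
    rw [show (n : ℤ) + -(a j : ℤ) = (n : ℤ) - a j by ring]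
  have hbad : ∀ a ∈ 𝒮, (N : ℝ) / L ^ (K + 1) ≤ ∑ l : τ, |∑ n ∈ Icc 1 N, (if n ∈ 𝒩 l then (1 : ℝ) else 0) *
      (∏ i, kf n (a i) - ∏ i, kz z n (a i))| := by
    intro a ha
    rw [h𝒮, mem_filter] at ha
    obtain ⟨ha1, ha2⟩ := ha
    by_contra hcon
    push Not at hcon
    apply ha2
    intro l hRl
    have h5 : |∑ n ∈ Icc 1 N, (if n ∈ 𝒩 l then (1 : ℝ) else 0) *
      (∏ i, kf n (a i) - ∏ i, kz z n (a i))| ≤ N / L ^ (K + 1) :=
      (single_le_sum (f := fun l : τ => |∑ n ∈ Icc 1 N, (if n ∈ 𝒩 l then (1 : ℝ) else 0) *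
        (∏ i, kf n (a i) - ∏ i, kz z n (a i))|) (fun _ _ => abs_nonneg _) (mem_univ l)).trans hcon.le
    rw [hindic (𝒩 l) (h𝒩 l), sum_sub_distrib] at h5
    have e2 : ∑ n ∈ 𝒩 l, ∏ i, kf n (a i) = WtM (one1 (r * 2)) (vv a) (𝒩 l) := by
      unfold WtM one1
      simp only [one_mul]
      exact sum_congr rfl fun n _ => (ekf a n).symm
    have e3 : ∑ n ∈ 𝒩 l, ∏ i, kz z n (a i) = (Vz z)⁻¹ ^ (r * 2) * rgM (one1 (r * 2)) (vv a) z (𝒩 l) := by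
      rw [← sum_mdl]
      unfold one1
      simp only [one_mul]
      exact sum_congr rfl fun n _ => (ekz a n).symm
    rw [e2, e3] at h5
    have hβ : ∀ i, (vv a i).natAbs ≤ 1 * N := by
      apply vv_le
      intro i
      unfold box at ha1
      exact (mem_Icc.1 (Fintype.mem_piFinset.1 ha1 i)).2
    rw [← hL] at hRl ⊢
    have hVinv : 1 ≤ (Vz z)⁻¹ ^ (r * 2) := one_le_pow₀ ((one_le_inv₀ (Vz_pos z)).2 (TH935.TG.Vz_le_one z))
    have hR0 : (0 : ℝ) ≤ rgM (one1 (r * 2)) (vv a) z (𝒩 l) := Nat.cast_nonneg _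
    have h6 := b1 (one1 (r * 2)) (vv a) (fun i => by unfold one1; norm_num) (fun i => by unfold one1; simp) hβ (𝒩 l) (h𝒩 l)
      ((Vz z)⁻¹ ^ (r * 2) * rgM (one1 (r * 2)) (vv a) z (𝒩 l)) (hRl.trans (le_mul_of_one_le_left hR0 hVinv)) h5
    have e1 : (Vz z)⁻¹ ^ (r * 2) * (rgM (one1 (r * 2)) (vv a) z (𝒩 l) : ℝ) / L ^ (r * 2) =
        rgM (one1 (r * 2)) (vv a) z (𝒩 l) / (Vz z * L) ^ (r * 2) := by
      have := (Vz_pos z).ne'
      rw [mul_pow, inv_pow]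
      field_simp
    rw [e1] at h6
    exact h6
  have hsum : (𝒮.card : ℝ) * (N / L ^ (K + 1)) ≤ L ^ T * (N ^ (r + 1) / L ^ (U + T + K + 1)) := by
    calc (𝒮.card : ℝ) * (N / L ^ (K + 1)) = ∑ _a ∈ 𝒮, (N : ℝ) / L ^ (K + 1) := by rw [sum_const, nsmul_eq_mul]
      _ ≤ ∑ a ∈ 𝒮, ∑ l : τ, |∑ n ∈ Icc 1 N, (if n ∈ 𝒩 l then (1 : ℝ) else 0) *
          (∏ i, kf n (a i) - ∏ i, kz z n (a i))| := sum_le_sum hbad
      _ ≤ ∑ a ∈ box r N, ∑ l : τ, |∑ n ∈ Icc 1 N, (if n ∈ 𝒩 l then (1 : ℝ) else 0) *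
          (∏ i, kf n (a i) - ∏ i, kz z n (a i))| := by
          rw [h𝒮]
          exact sum_le_sum_of_subset_of_nonneg (filter_subset _ _) (fun _ _ _ => sum_nonneg fun _ _ => abs_nonneg _)
      _ = ∑ l : τ, ∑ a ∈ box r N, |∑ n ∈ Icc 1 N, (if n ∈ 𝒩 l then (1 : ℝ) else 0) *
          (∏ i, kf n (a i) - ∏ i, kz z n (a i))| := sum_comm
      _ ≤ ∑ _l : τ, (N : ℝ) ^ (r + 1) / L ^ (U + T + K + 1) := by
          refine sum_le_sum fun l _ => b0' (fun n => if n ∈ 𝒩 l then (1 : ℝ) else 0) fun n => ?_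
          split_ifs <;> simp
      _ = Fintype.card τ * (N ^ (r + 1) / L ^ (U + T + K + 1)) := by rw [sum_const, card_univ, nsmul_eq_mul]
      _ ≤ L ^ T * (N ^ (r + 1) / L ^ (U + T + K + 1)) := mul_le_mul_of_nonneg_right ht (by positivity)
  have h6 : L ^ T * ((N : ℝ) ^ (r + 1) / L ^ (U + T + K + 1)) = (N ^ r / L ^ U) * (N / L ^ (K + 1)) := by
    rw [pow_succ (N : ℝ) r, show U + T + K + 1 = U + T + (K + 1) by ring, pow_add L (U + T) (K + 1), pow_add L U T]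
    field_simp
  rw [h6] at hsum
  exact le_of_mul_le_mul_right hsum (by positivity)

open Classical in
theorem win_gn (hU3 : S_U3) (r T U K : ℕ) (hr : 1 ≤ r) (ε : ℝ) (hε : 0 < ε) : ∃ E0 : ℕ, ∀ E : ℕ, E0 ≤ E →
    ∃ N0 : ℕ, ∀ N : ℕ, N0 ≤ N → ∀ (τ : Type) [Fintype τ], (Fintype.card τ : ℝ) ≤ Real.log N ^ T →
    ∀ 𝒩 : τ → Finset ℕ, (∀ l, 𝒩 l ⊆ Ioc 0 (1 * N)) →
    (((box r N).filter (fun a => ¬ HB1 ε K 1 N ⌊Real.log N ^ E⌋₊ 𝒩 (vv a))).card : ℝ) ≤ (N : ℝ) ^ r / Real.log N ^ U := by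
  obtain ⟨E0, h0⟩ := arb_gn hU3 r (T + 2 * (K + r * 2 + 4)) U (K + 1) hr (ε / 2) (half_pos hε)
  refine ⟨E0, fun E hE => ?_⟩
  obtain ⟨n0, h1⟩ := h0 E hE
  obtain ⟨n1, h2⟩ := win_det1 (r * 2) 1 K E ε hε
  obtain ⟨n2, h3⟩ := ev_L' 1
  refine ⟨n0 + n1 + n2, fun N hN τ _ ht 𝒩 h𝒩 => ?_⟩
  have hL1 := h3 N (by omega)
  have hz1 : 1 ≤ ⌊Real.log N ^ E⌋₊ := Nat.le_floor (by rw [Nat.cast_one]; exact one_le_pow₀ hL1)
  have hz2 : ((⌊Real.log N ^ E⌋₊ : ℕ) : ℝ) ≤ Real.log N ^ E := Nat.floor_le (pow_nonneg (by linarith) _)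
  obtain ⟨J, s', hJ, hdet⟩ := h2 N (by omega) τ 𝒩 ⌊Real.log N ^ E⌋₊ hz1 hz2
  refine le_trans ?_ (h1 N (by omega) (τ × (Fin (J + 1) × Fin (J + 1))) ?_
    (fun l => win (𝒩 l.1) ((l.2.1 : ℕ) * s') ((l.2.2 : ℕ) * s')) ?_)
  · rw [Nat.cast_le]
    apply card_le_card
    intro a ha
    rw [mem_filter] at ha ⊢
    exact ⟨ha.1, fun hA => ha.2 (hdet _ hA)⟩
  · rw [Fintype.card_prod, Fintype.card_prod, Fintype.card_fin]
    push_cast at hJ ⊢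
    calc (Fintype.card τ : ℝ) * (((J : ℝ) + 1) * ((J : ℝ) + 1)) = Fintype.card τ * ((J : ℝ) + 1) ^ 2 := by ring
      _ ≤ Real.log N ^ T * Real.log N ^ (2 * (K + r * 2 + 4)) := mul_le_mul ht hJ (by positivity) (pow_nonneg (by linarith) _)
      _ = _ := by rw [← pow_add]
  · intro l
    exact (filter_subset _ _).trans (h𝒩 l.1)

end Pool.Agent.E8helper28.GN
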